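import Pool.Agent.Helper21_Leo3.Dwn

/-!
Squad leo3, module TOW: going up in Galois extensions of 3-power degree.
-/

set_option autoImplicit false

open NumberField IsDedekindDomain WithZero Module Polynomial

namespace Pool.Agent.Leo3.H21

open Pool.Agent.Leo3

theorem ram_one {K L : Type} [Field K] [NumberField K] [Field L] [NumberField L] [Algebra K L]
    (p : Ideal (𝓞 K)) (P : Ideal (𝓞 L)) [p.IsPrime] [P.IsPrime] [P.LiesOver p] (hP : P ≠ ⊥)
    (h : Algebra.IsUnramifiedAt (𝓞 K) P) : p.ramificationIdx' P = 1 := by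
  have hle : p.map (algebraMap (𝓞 K) (𝓞 L)) ≤ P :=
    Ideal.map_le_iff_le_comap.mpr (le_of_eq (Ideal.LiesOver.over (P := P) (p := p)))
  let _ := Localization.AtPrime.algebraOfLiesOver p P
  rw [Ideal.IsDedekindDomain.ramificationIdx'_eq_one_iff hP hle]
  exact ((Algebra.isUnramifiedAt_iff_map_eq (𝓞 K) p P).mp h).2

theorem surj_of_one {K L : Type} [Field K] [Field L] [Algebra K L]
    (h1 : finrank K L = 1) (z : L) : ∃ y : K, algebraMap K L y = z := by
  have h2 : (⊥ : IntermediateField K L) = ⊤ :=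
    IntermediateField.bot_eq_top_iff_finrank_eq_one.mpr h1
  have h3 : z ∈ (⊥ : IntermediateField K L) := by
    rw [h2]
    exact IntermediateField.mem_top
  exact IntermediateField.mem_bot.mp h3

theorem inLoc_down {K L : Type} [Field K] [Field L] [Algebra K L] (h1 : finrank K L = 1)
    {φ : K →+* Om} {ψ : L →+* Om} (h : ∀ x, ψ (algebraMap K L x) = φ x) {t : Om}
    (ht : InLoc ψ t) : InLoc φ t := by
  intro ρ hρ
  apply ht ρ
  intro z
  obtain ⟨y, rfl⟩ := surj_of_one h1 z
  rw [h]
  exact hρ y

theorem base {K L : Type} [Field K] [NumberField K] [Field L] [NumberField L] [Algebra K L]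
    (h1 : finrank K L = 1) (hu : UnrOut K L) (hmu : NoMu K) (hW : W K) : NoMu L ∧ W L := by
  refine ⟨?_, ?_⟩
  · intro ψ t ht h3
    exact hmu (ψ.comp (algebraMap K L)) t (inLoc_down h1 (fun _ => rfl) ht) h3
  · intro z hz hv hl
    obtain ⟨y, rfl⟩ := surj_of_one h1 z
    have hy : y ≠ 0 := by
      rintro rfl
      exact hz (map_zero _)
    have hvy : ValCube y := by
      intro q hq
      obtain ⟨P, hPm, hPl⟩ := Ideal.exists_maximal_ideal_liesOver_of_isIntegral (S := 𝓞 L)
        q.asIdeal
      have hP0 : P ≠ ⊥ := Ideal.ne_bot_of_liesOver_of_ne_bot q.ne_bot P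
      let Q : HeightOneSpectrum (𝓞 L) := ⟨P, hPm.isPrime, hP0⟩
      have h6 : (6 : 𝓞 L) ∉ P := by
        intro h6
        apply hq
        have h7 : algebraMap (𝓞 K) (𝓞 L) 6 ∈ P := by
          rwa [map_ofNat]
        rw [hPl.over]
        exact h7
      have hQl : Q.asIdeal.LiesOver q.asIdeal := hPl
      have h8 := HeightOneSpectrum.valuation_liesOver L q Q y
      have hun := hu P hP0 h6
      have h9 : q.asIdeal.ramificationIdx' Q.asIdeal = 1 := ram_one q.asIdeal P hP0 hun
      rw [h9, pow_one] at h8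
      rw [h8]
      exact hv Q h6
    have hly : LocCube y := by
      intro φ
      obtain ⟨ψ, hψ⟩ := exists_ext (L := L) φ
      obtain ⟨t, ht, h3⟩ := hl ψ
      exact ⟨t, inLoc_down h1 hψ ht, by rw [h3, hψ]⟩
    obtain ⟨t, ht⟩ := hW y hy hvy hly
    exact ⟨algebraMap K L t, by rw [← map_pow, ht]⟩

/-- A Galois extension of degree `3 ^ (k + 1)` has a Galois subextension of degree 3. -/
theorem exists_mid {K L : Type} [Field K] [Field L] [Algebra K L] [FiniteDimensional K L]
    [IsGalois K L] {k : ℕ} (h : finrank K L = 3 ^ (k + 1)) :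
    ∃ N : Subgroup Gal(L/K), N.Normal ∧ finrank K (IntermediateField.fixedField N) = 3 ∧
      finrank (IntermediateField.fixedField N) L = 3 ^ k := by
  have hcard : Nat.card Gal(L/K) = 3 ^ (k + 1) := by
    rw [IsGalois.card_aut_eq_finrank, h]
  have h3 : Fact (Nat.Prime 3) := ⟨Nat.prime_three⟩
  obtain ⟨N, hN⟩ := Sylow.exists_subgroup_card_pow_prime (G := Gal(L/K)) 3 (n := k)
    (by rw [hcard]; exact pow_dvd_pow 3 (Nat.le_succ k))
  have hidx : N.index = 3 := by
    have h4 := N.card_mul_index
    rw [hN, hcard, pow_succ] at h4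
    exact Nat.eq_of_mul_eq_mul_left (by positivity) h4
  have hmin : (Nat.card Gal(L/K)).minFac = 3 := by
    rw [hcard, Nat.pow_minFac (Nat.succ_ne_zero k)]
    exact Nat.Prime.minFac_eq Nat.prime_three
  have hnor : N.Normal := Subgroup.normal_of_index_eq_minFac_card (by rw [hidx, hmin])
  have hf2 : finrank (IntermediateField.fixedField N) L = 3 ^ k := by
    rw [IntermediateField.finrank_fixedField_eq_card, hN]
  refine ⟨N, hnor, ?_, hf2⟩
  have h5 := finrank_mul_finrank K (IntermediateField.fixedField N) L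
  rw [hf2, h, pow_succ, mul_comm] at h5
  exact Nat.eq_of_mul_eq_mul_left (by positivity) h5

theorem tow (hg : GupStmt) : TowStmt := by
  intro K L _ _ _ _ _ _ k
  revert K L
  induction k with
  | zero =>
    intro K L _ _ _ _ _ _ h hu hmu hW
    exact base (by simpa using h) hu hmu hW
  | succ k ih =>
    intro K L _ _ _ _ _ _ h hu hmu hW
    obtain ⟨N, hnor, h1, h2⟩ := exists_mid h
    let E := IntermediateField.fixedField N
    have : NumberField E := NumberField.of_intermediateField E
    have hu1 : UnrOut K E := by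
      intro p hp hp0 h6
      have hpm : p.IsMaximal := hp.isMaximal hp0
      obtain ⟨P, hPm, hPl⟩ := Ideal.exists_maximal_ideal_liesOver_of_isIntegral (S := 𝓞 L) p
      have hP0 : P ≠ ⊥ := Ideal.ne_bot_of_liesOver_of_ne_bot hp0 P
      have h6' : (6 : 𝓞 L) ∉ P := by
        intro h7
        apply h6
        have h8 : algebraMap (𝓞 E) (𝓞 L) 6 ∈ P := by
          rwa [map_ofNat]
        rw [hPl.over]
        exact h8
      have hPp : P.IsPrime := hPm.isPrime
      have := hu P hP0 h6'
      exact Algebra.IsUnramifiedAt.of_liesOver (R := 𝓞 K) p P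
    have hu2 : UnrOut E L := by
      intro P hP hP0 h6
      have := hu P hP0 h6
      exact Algebra.IsUnramifiedAt.of_restrictScalars (R := 𝓞 K) P
    obtain ⟨hm1, hW1⟩ := hg K E h1 hu1 hmu hW
    exact ih E L h2 hu2 hm1 hW1

end Pool.Agent.Leo3.H21
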