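import Pool.Agent.Leo3.Stmts

/-!
Squad leo3, module DWN: going down a quadratic extension.
-/

set_option autoImplicit false

open NumberField IsDedekindDomain WithZero Module Polynomial

namespace Pool.Agent.Leo3.H21

open Pool.Agent.Leo3

/-- Embeddings extend to algebraic extensions. -/
theorem exists_ext {K L : Type} [Field K] [Field L] [Algebra K L] [Algebra.IsAlgebraic K L]
    (φ : K →+* Om) : ∃ ψ : L →+* Om, ∀ x, ψ (algebraMap K L x) = φ x := by
  let _ : Algebra K Om := φ.toAlgebra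
  let f : L →ₐ[K] Om := IsAlgClosed.lift
  exact ⟨f.toRingHom, fun x => f.commutes x⟩

theorem fixF_down {K L : Type} [Field K] [Field L] [Algebra K L] {φ : K →+* Om} {ψ : L →+* Om}
    (h : ∀ x, ψ (algebraMap K L x) = φ x) {ρ : Om ≃ₐ[ℚ_[3]] Om} (hρ : FixF ψ ρ) : FixF φ ρ := by
  intro x
  rw [← h x]
  exact hρ _

theorem inLoc_up {K L : Type} [Field K] [Field L] [Algebra K L] {φ : K →+* Om} {ψ : L →+* Om}
    (h : ∀ x, ψ (algebraMap K L x) = φ x) {t : Om} (ht : InLoc φ t) : InLoc ψ t :=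
  fun ρ hρ => ht ρ (fixF_down h hρ)

theorem noMu_down {K L : Type} [Field K] [Field L] [Algebra K L] [Algebra.IsAlgebraic K L]
    (h : NoMu L) : NoMu K := by
  intro φ t ht h3
  obtain ⟨ψ, hψ⟩ := exists_ext (L := L) φ
  exact h ψ t (inLoc_up hψ ht) h3

theorem locCube_up {K L : Type} [Field K] [Field L] [Algebra K L] {z : K} (h : LocCube z) :
    LocCube (algebraMap K L z) := by
  intro ψ
  obtain ⟨t, ht, h3⟩ := h (ψ.comp (algebraMap K L))
  exact ⟨t, inLoc_up (fun _ => rfl) ht, h3⟩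

theorem valCube_up {K L : Type} [Field K] [NumberField K] [Field L] [NumberField L] [Algebra K L]
    {z : K} (h : ValCube z) : ValCube (algebraMap K L z) := by
  intro P hP
  let q : HeightOneSpectrum (𝓞 K) := P.under (𝓞 K)
  have hq : (6 : 𝓞 K) ∉ q.asIdeal := by
    intro h6
    apply hP
    have h7 : algebraMap (𝓞 K) (𝓞 L) 6 ∈ P.asIdeal := h6
    rwa [map_ofNat] at h7
  obtain ⟨x, hx⟩ := h q hq
  have : P.asIdeal.LiesOver q.asIdeal := ⟨rfl⟩
  have h8 := HeightOneSpectrum.valuation_liesOver L q P z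
  refine ⟨x ^ (q.asIdeal.ramificationIdx' P.asIdeal), ?_⟩
  rw [← h8, hx, ← pow_mul, ← pow_mul, mul_comm]

theorem dwn : DwnStmt := by
  intro K L _ _ _ _ _ h2 hmu hW
  have : FiniteDimensional K L := FiniteDimensional.of_finrank_pos (by rw [h2]; norm_num)
  refine ⟨noMu_down hmu, ?_⟩
  intro z hz hv hl
  have hz' : algebraMap K L z ≠ 0 := by
    simpa using hz
  obtain ⟨s, hs⟩ := hW (algebraMap K L z) hz' (valCube_up hv) (locCube_up hl)
  have hN : (Algebra.norm K s) ^ 3 = z ^ 2 := by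
    rw [← map_pow, hs, Algebra.norm_algebraMap, h2]
  refine ⟨z / Algebra.norm K s, ?_⟩
  rw [div_pow, hN]
  field_simp

end Pool.Agent.Leo3.H21
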